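import Pool.Agent.Helper85.Lusin.Select

/-!
# The hereditary form of Scheepers' question on `K_Omega`-Lindelof Lusin sets

For a Lusin set `X` the following are equivalent: all complements of countable sets are
`K_Omega`-Lindelof; all subspaces are `K_Omega`-Lindelof; all subspaces have
`S_1(K_Omega, K_Omega)`; `X` is strongly Lusin.
-/

open Set TopologicalSpace Pool.Agent.Helper85.Lusin

namespace Pool.Agent.Results.MP_74a7a6_gt.HereditaryS1

theorem result {X : Type*} [TopologicalSpace X] [MetrizableSpace X] [SecondCountableTopology X]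
    (hX : IsLusin X) :
    List.TFAE [
      ∀ D : Set X, D.Countable → KOmegaLindelof ↥Dᶜ,
      ∀ Y : Set X, KOmegaLindelof ↥Y,
      ∀ Y : Set X, S1KOmega ↥Y,
      StronglyLusin X] := by
  tfae_have 1 → 4 := fun h => stronglyLusin_of_cocountable hX.2 h
  tfae_have 4 → 3 := fun h Y => s1_of_stronglyLusin (h.subspace Y)
  tfae_have 3 → 2 := fun h Y => (h Y).lindelof
  tfae_have 2 → 1 := fun h D _ => h Dᶜ
  tfae_finish

end Pool.Agent.Results.MP_74a7a6_gt.HereditaryS1
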