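import Pool.Agent.Helper18.KO.Main

/-!
# Scheepers' question on `K_Omega`-Lindelof Lusin sets: the negated form is a theorem

A Lusin set is `K_Omega`-Lindelof if and only if it has `S_1(K_Omega, K_Omega)`. In particular,
if some Lusin set is `K_Omega`-Lindelof, then some Lusin set (the same one) has
`S_1(K_Omega, K_Omega)`.
-/

open Set TopologicalSpace Pool.Agent.Helper85.Lusin

universe u

namespace Pool.Agent.Results.MP_74a7a6_gt.LindelofIffSOne

/-- For every Lusin set the two properties of the question are equivalent. -/
theorem result {X : Type u} [TopologicalSpace X] [MetrizableSpace X] [SeparableSpace X]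
    (hX : IsLusin X) : KOmegaLindelof X ↔ S1KOmega X := by
  let _ : MetricSpace X := metrizableSpaceMetric X
  have : SecondCountableTopology X := UniformSpace.secondCountable_of_separable X
  exact ⟨Pool.Agent.Helper18.KO.s1_of_lindelof hX, fun h => h.lindelof⟩

/-- The negated form of the question, word for word (it follows at once from `result`). -/
theorem negated_form
    (h : ∃ (X : Type u) (_ : TopologicalSpace X), MetrizableSpace X ∧ SeparableSpace X ∧
      IsLusin X ∧ KOmegaLindelof X) :
    ∃ (X : Type u) (_ : TopologicalSpace X), MetrizableSpace X ∧ SeparableSpace X ∧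
      IsLusin X ∧ S1KOmega X := by
  obtain ⟨X, tX, h1, h2, h3, h4⟩ := h
  exact ⟨X, tX, h1, h2, h3, (result h3).1 h4⟩

end Pool.Agent.Results.MP_74a7a6_gt.LindelofIffSOne
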