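import Pool.Agent.Helper85.Lusin.SmallD

/-!
# The scenario of Scheepers' question needs a large dominating number

If there is a Lusin set, but no Lusin set has `S_1(K_Omega, K_Omega)`, then the dominating number
is larger than `ℵ₁`.
-/

open Set TopologicalSpace Filter Pool.Agent.Helper85.Lusin

namespace Pool.Agent.Results.MP_74a7a6_gt.NoSOneLargeD

theorem result {X : Type*} [TopologicalSpace X] [MetrizableSpace X] [SecondCountableTopology X]
    (hX : IsLusin X) (hno : ∀ Y : Set X, IsLusin ↥Y → ¬ S1KOmega ↥Y)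
    (D : Set (ℕ → ℕ)) (hD : Cardinal.mk D ≤ Cardinal.aleph 1) :
    ∃ g : ℕ → ℕ, ∀ d ∈ D, ¬ ∀ᶠ n in atTop, g n ≤ d n := by
  by_contra hcon
  push Not at hcon
  obtain ⟨Y, hY, hYS⟩ := exists_strongly_lusin hX hD hcon
  exact hno Y hY (s1_of_stronglyLusin hYS)

end Pool.Agent.Results.MP_74a7a6_gt.NoSOneLargeD
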